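import Pool.Agent.H562.BP.Stm

/-!
# Project BP (helper562), lemma LA (helper263): Laurent expansion of the even powers of the cosecant
-/

set_option autoImplicit false

namespace Pool.Agent.H263.BP562

open Finset Filter Topology

theorem analytic_dslope {f : ℝ → ℝ} (hf : ∀ x, AnalyticAt ℝ f x) (x : ℝ) :
    AnalyticAt ℝ (dslope f 0) x := by
  by_cases hx : x = 0
  · subst hx
    obtain ⟨p, hp⟩ := hf 0
    exact ⟨_, hp.has_fpower_series_dslope_fslope⟩
  · have h1 : dslope f 0 =ᶠ[𝓝 x] slope f 0 := dslope_eventuallyEq_slope_of_ne f hx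
    rw [analyticAt_congr h1]
    have h2 : slope f 0 = fun y => (y - 0)⁻¹ * (f y - f 0) := by
      funext y
      rw [slope_def_module, smul_eq_mul]
    rw [h2]
    exact ((analyticAt_id.sub analyticAt_const).inv (by simpa using hx)).mul
      ((hf x).sub analyticAt_const)

/-- the quotient `sin x / x` -/
noncomputable def sg : ℝ → ℝ := dslope Real.sin 0

noncomputable def s1 : ℝ → ℝ := dslope sg 0

noncomputable def ta : ℝ → ℝ := dslope s1 0

theorem sg_an (x : ℝ) : AnalyticAt ℝ sg x := analytic_dslope (fun _ => Real.analyticAt_sin) x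

theorem s1_an (x : ℝ) : AnalyticAt ℝ s1 x := analytic_dslope sg_an x

theorem ta_an (x : ℝ) : AnalyticAt ℝ ta x := analytic_dslope s1_an x

theorem sg_zero : sg 0 = 1 := by
  unfold sg
  rw [dslope_same, Real.deriv_sin, Real.cos_zero]

theorem sg_mul (x : ℝ) : x * sg x = Real.sin x := by
  have h := sub_smul_dslope Real.sin 0 x
  rw [sub_zero, Real.sin_zero, sub_zero, smul_eq_mul] at h
  exact h

theorem sg_even (x : ℝ) : sg (-x) = sg x := by
  by_cases hx : x = 0
  · rw [hx, neg_zero]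
  · have h1 := sg_mul x
    have h2 := sg_mul (-x)
    rw [Real.sin_neg, ← h1] at h2
    have h3 : x * (sg (-x) - sg x) = 0 := by linarith
    rcases mul_eq_zero.1 h3 with h | h
    · exact absurd h hx
    · linarith

theorem s1_zero : s1 0 = 0 := by
  have h0 : s1 0 = deriv sg 0 := dslope_same sg 0
  have h1 : HasDerivAt sg (deriv sg 0) (-0) := by
    rw [neg_zero]
    exact (sg_an 0).differentiableAt.hasDerivAt
  have h2 : HasDerivAt (fun x => sg (-x)) (deriv sg 0 * (-1)) 0 :=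
    h1.comp (0 : ℝ) (hasDerivAt_neg 0)
  have h3 : (fun x => sg (-x)) = sg := by
    funext x
    exact sg_even x
  rw [h3] at h2
  have h4 := h2.unique (sg_an 0).differentiableAt.hasDerivAt
  rw [h0]
  linarith

theorem sg_eq (x : ℝ) : sg x = 1 + x ^ 2 * ta x := by
  have h1 := sub_smul_dslope sg 0 x
  have h2 := sub_smul_dslope s1 0 x
  rw [sub_zero, sg_zero, smul_eq_mul] at h1
  rw [sub_zero, s1_zero, sub_zero, smul_eq_mul] at h2
  change x * s1 x = _ at h1
  change x * ta x = _ at h2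
  rw [← h2] at h1
  linear_combination -h1

theorem sg_ne {x : ℝ} (hx : x ∈ Set.Ioo (-Real.pi) Real.pi) : sg x ≠ 0 := by
  by_cases h0 : x = 0
  · rw [h0, sg_zero]
    exact one_ne_zero
  · intro h
    have h1 := sg_mul x
    rw [h, mul_zero] at h1
    rcases lt_or_gt_of_ne h0 with h2 | h2
    · exact absurd h1 (Real.sin_neg_of_neg_of_neg_pi_lt h2 hx.1).ne'
    · exact absurd h1 (Real.sin_pos_of_pos_of_lt_pi h2 hx.2).ne

def P (G : ℕ) : Prop := ∃ (c : ℕ → ℝ) (R : ℝ → ℝ), (∀ j < G, 0 < c j) ∧ (∀ j, G ≤ j → c j = 0) ∧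
  AnalyticOnNhd ℝ R (Set.Ioo (-Real.pi) Real.pi) ∧ ∀ x ∈ Set.Ioo (0 : ℝ) Real.pi,
    1 / Real.sin x ^ (2 * G) = ∑ j ∈ range G, c j / x ^ (2 * (j + 1)) + R x

theorem base : P 1 := by
  refine ⟨fun j => if j = 0 then 1 else 0, fun x => -(ta x * (1 + sg x) / sg x ^ 2), ?_, ?_, ?_, ?_⟩
  · intro j hj
    have h : j = 0 := by omega
    simp [h]
  · intro j hj
    have h : j ≠ 0 := by omega
    simp [h]
  · intro x hx
    exact (((ta_an x).mul (analyticAt_const.add (sg_an x))).div ((sg_an x).pow 2)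
      (pow_ne_zero 2 (sg_ne hx))).neg
  · intro x hx
    have hx0 : x ≠ 0 := hx.1.ne'
    have h1 : sg x ≠ 0 := sg_ne ⟨by linarith [hx.1, Real.pi_pos], hx.2⟩
    rw [sum_range_one]
    change 1 / Real.sin x ^ (2 * 1) = (if (0 : ℕ) = 0 then (1 : ℝ) else 0) / x ^ (2 * (0 + 1)) +
      -(ta x * (1 + sg x) / sg x ^ 2)
    rw [if_pos rfl, ← sg_mul]
    have h2 : ta x = (sg x - 1) / x ^ 2 := by
      rw [sg_eq x]
      field_simp
      ring
    rw [h2]
    field_simp
    ring

theorem hasDerivAt_inv_pow {x : ℝ} (hx : x ≠ 0) (c : ℝ) (n : ℕ) :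
    HasDerivAt (fun x : ℝ => c / x ^ n) (-(n * c / x ^ (n + 1))) x := by
  have h := ((hasDerivAt_pow n x).inv (pow_ne_zero n hx)).const_mul c
  have h1 : (fun x : ℝ => c / x ^ n) = fun x : ℝ => c * (x ^ n)⁻¹ := by
    funext y
    rw [div_eq_mul_inv]
  rw [h1]
  refine h.congr_deriv ?_
  rcases n with _ | n
  · simp
  · rw [Nat.add_sub_cancel]
    field_simp
    ring

theorem step {G : ℕ} (hG : 1 ≤ G) (h : P G) : P (G + 1) := by
  obtain ⟨c, R, hc, hc0, hR, he⟩ := h
  have hG0 : (0 : ℝ) < G := by exact_mod_cast hG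
  have hsin : ∀ x ∈ Set.Ioo (0 : ℝ) Real.pi, Real.sin x ≠ 0 := fun x hx =>
    (Real.sin_pos_of_pos_of_lt_pi hx.1 hx.2).ne'
  have hmem : ∀ x ∈ Set.Ioo (0 : ℝ) Real.pi, x ∈ Set.Ioo (-Real.pi) Real.pi := fun x hx =>
    ⟨by linarith [hx.1, Real.pi_pos], hx.2⟩
  have hU : ∀ x ∈ Set.Ioo (0 : ℝ) Real.pi, HasDerivAt (fun x => 1 / Real.sin x ^ (2 * G))
      (-(2 * G * Real.cos x / Real.sin x ^ (2 * G + 1))) x := by
    intro x hx
    have h1 := (hasDerivAt_inv_pow (hsin x hx) 1 (2 * G)).comp x (Real.hasDerivAt_sin x)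
    refine h1.congr_deriv ?_
    push_cast
    ring
  have hU2 : ∀ x ∈ Set.Ioo (0 : ℝ) Real.pi,
      HasDerivAt (fun x => -(2 * G * Real.cos x / Real.sin x ^ (2 * G + 1)))
      (2 * G * (2 * G + 1) * (1 / Real.sin x ^ (2 * (G + 1))) -
        4 * G ^ 2 * (1 / Real.sin x ^ (2 * G))) x := by
    intro x hx
    have h1 := (hasDerivAt_inv_pow (hsin x hx) (-(2 * G)) (2 * G + 1)).comp x
      (Real.hasDerivAt_sin x)
    have h2 := h1.mul (Real.hasDerivAt_cos x)
    have h3 : (fun x => -(2 * G * Real.cos x / Real.sin x ^ (2 * G + 1))) =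
        ((fun x : ℝ => -(2 * G) / x ^ (2 * G + 1)) ∘ Real.sin) * Real.cos := by
      funext y
      simp only [Pi.mul_apply, Function.comp_apply]
      ring
    rw [h3]
    refine h2.congr_deriv ?_
    have hs := hsin x hx
    have h4 : Real.cos x * Real.cos x = 1 - Real.sin x ^ 2 := by
      have := Real.sin_sq_add_cos_sq x
      linarith
    have h5 : Real.sin x ^ (2 * (G + 1)) = Real.sin x ^ (2 * G) * Real.sin x ^ 2 := by ring
    have h6 : Real.sin x ^ (2 * G + 1 + 1) = Real.sin x ^ (2 * G) * Real.sin x ^ 2 := by ring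
    have h7 : Real.sin x ^ (2 * G + 1) = Real.sin x ^ (2 * G) * Real.sin x := by ring
    have h8 : Real.sin x ^ (2 * G) ≠ 0 := pow_ne_zero _ hs
    simp only [Function.comp_apply]
    rw [h5, h6, h7]
    push_cast
    field_simp
    linear_combination (2 * (2 * (G : ℝ) + 1)) * h4
  have hT : ∀ x ∈ Set.Ioo (0 : ℝ) Real.pi,
      HasDerivAt (fun x => ∑ j ∈ range G, c j / x ^ (2 * (j + 1)) + R x)
      (∑ j ∈ range G, -(((2 * (j + 1) : ℕ) : ℝ) * c j / x ^ (2 * (j + 1) + 1)) + deriv R x) x := by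
    intro x hx
    refine HasDerivAt.add (HasDerivAt.fun_sum fun j _ => ?_)
      (hR x (hmem x hx)).differentiableAt.hasDerivAt
    exact hasDerivAt_inv_pow hx.1.ne' (c j) (2 * (j + 1))
  have hT2 : ∀ x ∈ Set.Ioo (0 : ℝ) Real.pi,
      HasDerivAt (fun x => ∑ j ∈ range G, -(((2 * (j + 1) : ℕ) : ℝ) * c j / x ^ (2 * (j + 1) + 1)) +
        deriv R x)
      (∑ j ∈ range G, ((2 * (j + 1) + 1 : ℕ) : ℝ) * (((2 * (j + 1) : ℕ) : ℝ) * c j) /
        x ^ (2 * (j + 2)) + deriv (deriv R) x) x := by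
    intro x hx
    refine HasDerivAt.add (HasDerivAt.fun_sum fun j _ => ?_)
      (hR.deriv x (hmem x hx)).differentiableAt.hasDerivAt
    refine (hasDerivAt_inv_pow hx.1.ne' (((2 * (j + 1) : ℕ) : ℝ) * c j)
      (2 * (j + 1) + 1)).neg.congr_deriv ?_
    rw [neg_neg]
    congr 1
  have key1 : ∀ x ∈ Set.Ioo (0 : ℝ) Real.pi, -(2 * G * Real.cos x / Real.sin x ^ (2 * G + 1)) =
      ∑ j ∈ range G, -(((2 * (j + 1) : ℕ) : ℝ) * c j / x ^ (2 * (j + 1) + 1)) + deriv R x := by
    intro x hx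
    have h1 : (fun x => ∑ j ∈ range G, c j / x ^ (2 * (j + 1)) + R x) =ᶠ[𝓝 x]
        fun x => 1 / Real.sin x ^ (2 * G) := by
      filter_upwards [isOpen_Ioo.mem_nhds hx] with y hy
      exact (he y hy).symm
    exact ((hU x hx).congr_of_eventuallyEq h1).unique (hT x hx)
  have key2 : ∀ x ∈ Set.Ioo (0 : ℝ) Real.pi,
      2 * G * (2 * G + 1) * (1 / Real.sin x ^ (2 * (G + 1))) -
        4 * G ^ 2 * (1 / Real.sin x ^ (2 * G)) =
      ∑ j ∈ range G, ((2 * (j + 1) + 1 : ℕ) : ℝ) * (((2 * (j + 1) : ℕ) : ℝ) * c j) /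
        x ^ (2 * (j + 2)) + deriv (deriv R) x := by
    intro x hx
    have h1 : (fun x => ∑ j ∈ range G, -(((2 * (j + 1) : ℕ) : ℝ) * c j / x ^ (2 * (j + 1) + 1)) +
        deriv R x) =ᶠ[𝓝 x] fun x => -(2 * G * Real.cos x / Real.sin x ^ (2 * G + 1)) := by
      filter_upwards [isOpen_Ioo.mem_nhds hx] with y hy
      exact (key1 y hy).symm
    exact ((hU2 x hx).congr_of_eventuallyEq h1).unique (hT2 x hx)
  have hD : (0 : ℝ) < 2 * G * (2 * G + 1) := by positivity
  refine ⟨fun j => ((2 * j) * (2 * j + 1) * c (j - 1) + 4 * G ^ 2 * c j) / (2 * G * (2 * G + 1)),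
    fun x => (deriv (deriv R) x + 4 * G ^ 2 * R x) / (2 * G * (2 * G + 1)), ?_, ?_, ?_, ?_⟩
  · intro j hj
    refine div_pos ?_ hD
    rcases j with _ | j
    · have := hc 0 (by omega)
      simp only [Nat.cast_zero, mul_zero, zero_mul, zero_add]
      positivity
    · have h1 := hc j (by omega)
      have h2 : 0 ≤ c (j + 1) := by
        by_cases h : j + 1 < G
        · exact (hc _ h).le
        · rw [hc0 _ (by omega)]
      rw [Nat.add_sub_cancel]
      positivity
  · intro j hj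
    have e1 := hc0 j (by omega)
    have e2 := hc0 (j - 1) (by omega)
    simp [e1, e2]
  · intro x hx
    exact ((hR.deriv.deriv x hx).add (analyticAt_const.mul (hR x hx))).div_const
  · intro x hx
    have h1 := key2 x hx
    have h2 := he x hx
    have h3 : 1 / Real.sin x ^ (2 * (G + 1)) =
        ((∑ j ∈ range G, ((2 * (j + 1) + 1 : ℕ) : ℝ) * (((2 * (j + 1) : ℕ) : ℝ) * c j) /
          x ^ (2 * (j + 2)) + 4 * G ^ 2 * ∑ j ∈ range G, c j / x ^ (2 * (j + 1))) +
          (deriv (deriv R) x + 4 * G ^ 2 * R x)) / (2 * G * (2 * G + 1)) := by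
      rw [eq_div_iff hD.ne', ← sub_eq_zero]
      rw [h2] at h1
      linear_combination h1
    rw [h3, add_div]
    congr 1
    have h4 : ∑ j ∈ range (G + 1), (2 * (j : ℝ)) * (2 * j + 1) * c (j - 1) / x ^ (2 * (j + 1)) =
        ∑ j ∈ range G, ((2 * (j + 1) + 1 : ℕ) : ℝ) * (((2 * (j + 1) : ℕ) : ℝ) * c j) /
          x ^ (2 * (j + 2)) := by
      rw [sum_range_succ']
      simp only [Nat.cast_zero, mul_zero, zero_mul, zero_div, add_zero]
      refine sum_congr rfl fun j _ => ?_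
      rw [Nat.add_sub_cancel]
      push_cast
      ring
    have h5 : ∑ j ∈ range (G + 1), 4 * (G : ℝ) ^ 2 * c j / x ^ (2 * (j + 1)) =
        4 * G ^ 2 * ∑ j ∈ range G, c j / x ^ (2 * (j + 1)) := by
      rw [sum_range_succ, hc0 G le_rfl, mul_zero, zero_div, add_zero, mul_sum]
      refine sum_congr rfl fun j _ => ?_
      ring
    rw [← h4, ← h5, ← sum_add_distrib, sum_div]
    refine sum_congr rfl fun j _ => ?_
    ring

theorem all (G : ℕ) (hG : 1 ≤ G) : P G := by
  induction G, hG using Nat.le_induction with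
  | base => exact base
  | succ n hn ih => exact step hn ih

theorem sum_Icc (f : ℕ → ℝ) (G : ℕ) : ∑ j ∈ Icc 1 G, f j = ∑ j ∈ range G, f (j + 1) := by
  induction G with
  | zero => simp
  | succ n ih => rw [sum_Icc_succ_top (by omega), ih, sum_range_succ]

theorem la_holds : H562BP.S_LA := by
  intro G hG
  obtain ⟨c, R, hc, -, hR, he⟩ := all G hG
  have hcont : ContinuousOn R (Set.Icc 0 (Real.pi / 2)) := by
    intro x hx
    have hpi := Real.pi_pos
    exact (hR x ⟨by linarith [hx.1], by linarith [hx.2]⟩).continuousAt.continuousWithinAt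
  obtain ⟨K, hK⟩ := isCompact_Icc.exists_bound_of_continuousOn hcont
  refine ⟨fun j => c (j - 1), K, fun j hj => ?_, fun x hx0 hx => ?_⟩
  · rw [mem_Icc] at hj
    exact hc _ (by omega)
  · have hpi := Real.pi_pos
    have h1 := he x ⟨hx0, by linarith⟩
    have h2 : ∑ j ∈ Icc 1 G, c (j - 1) / x ^ (2 * j) =
        ∑ j ∈ range G, c j / x ^ (2 * (j + 1)) := by
      rw [sum_Icc]
      refine sum_congr rfl fun j _ => ?_
      rw [Nat.add_sub_cancel]
    rw [h2, h1, add_sub_cancel_left, ← Real.norm_eq_abs]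
    exact hK x ⟨hx0.le, hx⟩

end Pool.Agent.H263.BP562
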